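import Pool.Agent.Q271.ForestAE

set_option autoImplicit false

namespace Pool.Agent.Results.MP_e7d22a_nt.AlmostEvery

open Q271.Forest MeasureTheory
open scoped Real

/-- For every `k ≥ 2` (already for `k = 2`) the union of `k` rotated and translated copies of the
triangular lattice is a dense forest for almost every choice of the parameters. -/
theorem result (k : ℕ) (hk : 2 ≤ k) :
    ∀ᵐ P : (Fin k → AddCircle (2 * π)) × (Fin k → ℂ), DenseForest (TBG k P.1 P.2) :=
  ae_denseForest k hk

end Pool.Agent.Results.MP_e7d22a_nt.AlmostEvery
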